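import Pool.Agent.Helper85_Idx.Stmts

/-!
# Squad IDX, module NORM: from the grammars of Aho to normalised grammars
-/

set_option autoImplicit false

namespace Pool.Agent.Idx.H48

open Classical in
/-- encoding into an option of a subtype -/
noncomputable def enc {A : Type} (s : Set A) (a : A) : Option s :=
  if h : a ∈ s then some ⟨a, h⟩ else none

theorem enc_inj {A : Type} {s : Set A} {a b : A} (ha : a ∈ s) (h : enc s a = enc s b) :
    a = b := by
  classical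
  unfold enc at h
  rw [dif_pos ha] at h
  by_cases hb : b ∈ s
  · rw [dif_pos hb] at h
    exact congrArg Subtype.val (Option.some.inj h)
  · rw [dif_neg hb] at h
    exact absurd h (by simp)

theorem enc_ne_none {A : Type} {s : Set A} {a : A} (ha : a ∈ s) : enc s a ≠ none := by
  classical
  unfold enc
  rw [dif_pos ha]
  simp

section

variable {T N Fl : Type}

/-- left hand sides -/
def NS (R₁ : Set (N × List (T ⊕ N))) (R₂ : Set (N × N × Fl))
    (R₃ : Set (N × Fl × List (T ⊕ N))) : Set N :=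
  Prod.fst '' R₁ ∪ Prod.fst '' R₂ ∪ Prod.fst '' R₃

/-- flags that are popped -/
def FS (R₃ : Set (N × Fl × List (T ⊕ N))) : Set Fl := (fun x => x.2.1) '' R₃

/-- the normalised grammar -/
noncomputable def gr (S : N) (R₁ : Set (N × List (T ⊕ N))) (R₂ : Set (N × N × Fl))
    (R₃ : Set (N × Fl × List (T ⊕ N))) (h₁ : R₁.Finite) (h₂ : R₂.Finite) (h₃ : R₃.Finite) :
    Gram T where
  N := Option (NS R₁ R₂ R₃)
  F := Option (FS R₃)
  finN := by
    have : (NS R₁ R₂ R₃).Finite := ((h₁.image _).union (h₂.image _)).union (h₃.image _)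
    have := this.to_subtype
    infer_instance
  finF := by
    have : (FS R₃).Finite := h₃.image _
    have := this.to_subtype
    infer_instance
  S := enc _ S
  bot := none
  R1 := (fun x => (enc _ x.1, x.2.map (Sum.map id (enc _)))) '' R₁
  R2 := (fun x => (enc _ x.1, enc _ x.2.1, enc _ x.2.2)) '' R₂
  R3 := (fun x => (enc _ x.1, enc _ x.2.1, x.2.2.map (Sum.map id (enc _)))) '' R₃
  fin1 := h₁.image _
  fin3 := h₃.image _
  nobot := by
    rintro A α ⟨x, hx, he⟩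
    have := congrArg (fun y => y.2.1) he
    have hx' : x.2.1 ∈ FS R₃ := ⟨x, hx, rfl⟩
    exact enc_ne_none hx' this

theorem D_app {Γ : Gram T} {n : ℕ} {α : List (T ⊕ Γ.N)} {τ : List Γ.F} {φ : List (T ⊕ Γ.N)}
    (h : D Γ n α τ φ) : ∀ {m : ℕ} {β ψ : List (T ⊕ Γ.N)}, D Γ m β τ ψ →
      ∃ k, D Γ k (α ++ β) τ (φ ++ ψ) := by
  induction h with
  | nil τ => intro m β ψ h; exact ⟨m, h⟩
  | term t _ ih =>
    intro m β ψ h
    obtain ⟨k, hk⟩ := ih h
    exact ⟨k, D.term t hk⟩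
  | ret A _ ih =>
    intro m β ψ h
    obtain ⟨k, hk⟩ := ih h
    exact ⟨k, D.ret A hk⟩
  | r1 h1 h2 h3 _ _ ih =>
    intro m β ψ h
    obtain ⟨k, hk⟩ := ih h
    have := D.r1 h1 h2 h3 hk
    rw [← List.append_assoc] at this
    exact ⟨_, this⟩
  | r2 h1 h2 h3 _ _ ih =>
    intro m β ψ h
    obtain ⟨k, hk⟩ := ih h
    have := D.r2 h1 h2 h3 hk
    rw [← List.append_assoc] at this
    exact ⟨_, this⟩
  | r3 h2 h3 _ _ ih =>
    intro m β ψ h
    obtain ⟨k, hk⟩ := ih h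
    have := D.r3 h2 h3 hk
    rw [← List.append_assoc] at this
    exact ⟨_, this⟩

variable {R₁ : Set (N × List (T ⊕ N))} {R₂ : Set (N × N × Fl)} {R₃ : Set (N × Fl × List (T ⊕ N))}

theorem step_ctx {u v : List (T ⊕ (N × List Fl))} (p q : List (T ⊕ (N × List Fl)))
    (h : Step R₁ R₂ R₃ u v) : Step R₁ R₂ R₃ (p ++ u ++ q) (p ++ v ++ q) := by
  obtain ⟨p', q', A, l, h⟩ := h
  refine ⟨p ++ p', q' ++ q, A, l, ?_⟩
  rcases h with ⟨α, h1, h2, h3⟩ | ⟨B, f, h1, h2, h3⟩ | ⟨f, α, h1, h2, h3⟩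
  · left
    exact ⟨α, h1, by rw [h2]; simp, by rw [h3]; simp⟩
  · right; left
    exact ⟨B, f, h1, by rw [h2]; simp, by rw [h3]; simp⟩
  · right; right
    exact ⟨f, α, h1, by rw [h2]; simp, by rw [h3]; simp⟩

theorem rt_ctx {u v : List (T ⊕ (N × List Fl))} (p q : List (T ⊕ (N × List Fl)))
    (h : Relation.ReflTransGen (Step R₁ R₂ R₃) u v) :
    Relation.ReflTransGen (Step R₁ R₂ R₃) (p ++ u ++ q) (p ++ v ++ q) :=
  Relation.ReflTransGen.lift (fun u => p ++ u ++ q) (fun _ _ h => step_ctx p q h) u v h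

theorem rt_app {u v u' v' : List (T ⊕ (N × List Fl))}
    (h : Relation.ReflTransGen (Step R₁ R₂ R₃) u v)
    (h' : Relation.ReflTransGen (Step R₁ R₂ R₃) u' v') :
    Relation.ReflTransGen (Step R₁ R₂ R₃) (u ++ u') (v ++ v') := by
  have h1 := rt_ctx [] u' h
  have h2 := rt_ctx v [] h'
  simp only [List.nil_append, List.append_nil] at h1 h2
  exact h1.trans h2

/-- attach the stack to the symbols of a right hand side -/
abbrev att (l : List Fl) (α : List (T ⊕ N)) : List (T ⊕ (N × List Fl)) :=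
  α.map (Sum.map id (fun B => (B, l)))

theorem map_eq_cons' {A B : Type} {f : A → B} {l : List A} {b : B} {t : List B}
    (h : b :: t = l.map f) : ∃ a l', l = a :: l' ∧ b = f a ∧ t = l'.map f := by
  cases l with
  | nil => simp at h
  | cons a l' =>
    rw [List.map_cons] at h
    exact ⟨a, l', rfl, (List.cons.inj h).1, (List.cons.inj h).2⟩

theorem D_to_step {S : N} {h₁ : R₁.Finite} {h₂ : R₂.Finite} {h₃ : R₃.Finite} {n : ℕ}
    {α' : List (T ⊕ (gr S R₁ R₂ R₃ h₁ h₂ h₃).N)} {τ : List (gr S R₁ R₂ R₃ h₁ h₂ h₃).F}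
    {φ : List (T ⊕ (gr S R₁ R₂ R₃ h₁ h₂ h₃).N)} (h : D (gr S R₁ R₂ R₃ h₁ h₂ h₃) n α' τ φ) :
    ∀ (α : List (T ⊕ N)) (l : List Fl), α' = α.map (Sum.map id (enc _)) →
      τ = l.map (enc _) ++ [none] → ∃ w : List T, φ = w.map Sum.inl ∧
        Relation.ReflTransGen (Step R₁ R₂ R₃) (att l α) (w.map Sum.inl) := by
  induction h with
  | nil τ =>
    intro α l h1 h2
    have : α = [] := by
      cases α with
      | nil => rfl
      | cons _ _ => simp at h1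
    subst this
    exact ⟨[], rfl, Relation.ReflTransGen.refl⟩
  | term t _ ih =>
    intro α l h1 h2
    obtain ⟨a, α₂, rfl, ha, hb⟩ := map_eq_cons' h1
    obtain ⟨w, hw, hr⟩ := ih α₂ l hb h2
    cases a with
    | inr A => simp at ha
    | inl t' =>
      have ha' : t = t' := Sum.inl.inj ha
      subst ha'
      refine ⟨t :: w, by rw [hw]; rfl, ?_⟩
      have := rt_ctx [Sum.inl t] [] hr
      simp only [List.append_nil, List.singleton_append] at this
      exact this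
  | ret A _ ih =>
    intro α l h1 h2
    exact absurd h2.symm (List.append_ne_nil_of_right_ne_nil _ (List.cons_ne_nil _ _))
  | @r1 n m A β α₁ τ φ ψ h1 h2 h3 h4 ih1 ih2 =>
    intro α l h5 h6
    obtain ⟨a, α₂, rfl, ha, hb⟩ := map_eq_cons' h5
    cases a with
    | inl t' => simp at ha
    | inr A' =>
      replace ha := Sum.inr.inj ha
      obtain ⟨⟨A₀, β₀⟩, hx, he⟩ := h2
      have e1 : enc (NS R₁ R₂ R₃) A₀ = A := congrArg (fun y => y.1) he
      have e2 : β₀.map (Sum.map id (enc (NS R₁ R₂ R₃))) = β := congrArg (fun y => y.2) he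
      have hA : A₀ ∈ NS R₁ R₂ R₃ := Or.inl (Or.inl ⟨_, hx, rfl⟩)
      have hAA : A₀ = A' := enc_inj hA (e1.trans ha)
      subst hAA
      obtain ⟨w1, hw1, hr1⟩ := ih1 β₀ l e2.symm h6
      obtain ⟨w2, hw2, hr2⟩ := ih2 α₂ l hb h6
      refine ⟨w1 ++ w2, by rw [hw1, hw2, List.map_append], ?_⟩
      rw [List.map_append]
      refine Relation.ReflTransGen.head ?_ (rt_app hr1 hr2)
      refine ⟨[], att l α₂, A₀, l, Or.inl ⟨β₀, hx, rfl, rfl⟩⟩
  | @r2 n m A B f α₁ τ φ ψ h1 h2 h3 h4 ih1 ih2 =>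
    intro α l h5 h6
    obtain ⟨a, α₂, rfl, ha, hb⟩ := map_eq_cons' h5
    cases a with
    | inl t' => simp at ha
    | inr A' =>
      replace ha := Sum.inr.inj ha
      obtain ⟨⟨A₀, B₀, f₀⟩, hx, he⟩ := h2
      have e1 : enc (NS R₁ R₂ R₃) A₀ = A := congrArg (fun y => y.1) he
      have e2 : enc (NS R₁ R₂ R₃) B₀ = B := congrArg (fun y => y.2.1) he
      have e3 : enc (FS R₃) f₀ = f := congrArg (fun y => y.2.2) he
      have hA : A₀ ∈ NS R₁ R₂ R₃ := Or.inl (Or.inr ⟨_, hx, rfl⟩)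
      have hAA : A₀ = A' := enc_inj hA (e1.trans ha)
      subst hAA
      obtain ⟨w1, hw1, hr1⟩ := ih1 [Sum.inr B₀] (f₀ :: l) (by rw [← e2]; rfl)
        (by rw [h6, ← e3]; rfl)
      obtain ⟨w2, hw2, hr2⟩ := ih2 α₂ l hb h6
      refine ⟨w1 ++ w2, by rw [hw1, hw2, List.map_append], ?_⟩
      rw [List.map_append]
      refine Relation.ReflTransGen.head ?_ (rt_app hr1 hr2)
      refine ⟨[], att l α₂, A₀, l, Or.inr (Or.inl ⟨B₀, f₀, hx, rfl, rfl⟩)⟩
  | @r3 n m A f β α₁ τ φ ψ h2 h3 h4 ih1 ih2 =>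
    intro α l h5 h6
    obtain ⟨a, α₂, rfl, ha, hb⟩ := map_eq_cons' h5
    cases a with
    | inl t' => simp at ha
    | inr A' =>
      replace ha := Sum.inr.inj ha
      obtain ⟨⟨A₀, f₀, β₀⟩, hx, he⟩ := h2
      have e1 : enc (NS R₁ R₂ R₃) A₀ = A := congrArg (fun y => y.1) he
      have e2 : enc (FS R₃) f₀ = f := congrArg (fun y => y.2.1) he
      have e3 : β₀.map (Sum.map id (enc (NS R₁ R₂ R₃))) = β := congrArg (fun y => y.2.2) he
      have hA : A₀ ∈ NS R₁ R₂ R₃ := Or.inr ⟨_, hx, rfl⟩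
      have hF : f₀ ∈ FS R₃ := ⟨_, hx, rfl⟩
      have hAA : A₀ = A' := enc_inj hA (e1.trans ha)
      subst hAA
      cases l with
      | nil =>
        exfalso
        have h6' : f :: τ = [none] := h6
        exact enc_ne_none hF (e2.trans (List.cons.inj h6').1)
      | cons g l' =>
        have h6' : f :: τ = enc (FS R₃) g :: (l'.map (enc (FS R₃)) ++ [none]) := h6
        obtain ⟨h7, h8⟩ := List.cons.inj h6'
        have hg : f₀ = g := enc_inj hF (e2.trans h7)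
        subst hg
        obtain ⟨w1, hw1, hr1⟩ := ih1 β₀ l' e3.symm h8
        obtain ⟨w2, hw2, hr2⟩ := ih2 α₂ (f₀ :: l') hb h6
        refine ⟨w1 ++ w2, by rw [hw1, hw2, List.map_append], ?_⟩
        rw [List.map_append]
        refine Relation.ReflTransGen.head ?_ (rt_app hr1 hr2)
        exact ⟨[], att (f₀ :: l') α₂, A₀, l', Or.inr (Or.inr ⟨f₀, β₀, hx, rfl, rfl⟩)⟩

/-- the form `u` with stacks derives the word `w` -/
def Good (S : N) (h₁ : R₁.Finite) (h₂ : R₂.Finite) (h₃ : R₃.Finite) :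
    List (T ⊕ (N × List Fl)) → List T → Prop
  | [], w => w = []
  | Sum.inl t :: u, w => ∃ w', w = t :: w' ∧ Good S h₁ h₂ h₃ u w'
  | Sum.inr (A, l) :: u, w => ∃ w₁ w₂, w = w₁ ++ w₂ ∧
      w₁ ∈ Lang (gr S R₁ R₂ R₃ h₁ h₂ h₃) (enc _ A) (l.map (enc _) ++ [none]) ∧
      Good S h₁ h₂ h₃ u w₂

variable {S : N} {h₁ : R₁.Finite} {h₂ : R₂.Finite} {h₃ : R₃.Finite}

theorem good_app (u v : List (T ⊕ (N × List Fl))) (w : List T) :
    Good S h₁ h₂ h₃ (u ++ v) w ↔ ∃ w₁ w₂, w = w₁ ++ w₂ ∧ Good S h₁ h₂ h₃ u w₁ ∧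
      Good S h₁ h₂ h₃ v w₂ := by
  induction u generalizing w with
  | nil =>
    constructor
    · intro h
      exact ⟨[], w, rfl, rfl, h⟩
    · rintro ⟨w₁, w₂, rfl, h1, h2⟩
      have : w₁ = [] := h1
      subst this
      exact h2
  | cons a u ih =>
    rcases a with t | ⟨A, l⟩
    · constructor
      · rintro ⟨w', rfl, h⟩
        obtain ⟨w₁, w₂, rfl, h1, h2⟩ := (ih w').1 h
        exact ⟨t :: w₁, w₂, rfl, ⟨w₁, rfl, h1⟩, h2⟩
      · rintro ⟨w₁, w₂, rfl, ⟨w', rfl, h1⟩, h2⟩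
        exact ⟨w' ++ w₂, rfl, (ih _).2 ⟨w', w₂, rfl, h1, h2⟩⟩
    · constructor
      · rintro ⟨w₁, w₂, rfl, h, h'⟩
        obtain ⟨w₃, w₄, rfl, h1, h2⟩ := (ih w₂).1 h'
        exact ⟨w₁ ++ w₃, w₄, by rw [List.append_assoc], ⟨w₁, w₃, rfl, h, h1⟩, h2⟩
      · rintro ⟨w₁, w₂, rfl, ⟨w₃, w₄, rfl, h, h1⟩, h2⟩
        exact ⟨w₃, w₄ ++ w₂, by rw [List.append_assoc], h, (ih _).2 ⟨w₄, w₂, rfl, h1, h2⟩⟩

theorem good_word (w : List T) : Good S h₁ h₂ h₃ (w.map Sum.inl : List (T ⊕ (N × List Fl))) w := by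
  induction w with
  | nil => rfl
  | cons t w ih => exact ⟨w, rfl, ih⟩

theorem good_att (l : List Fl) (α : List (T ⊕ N)) (w : List T)
    (h : Good S h₁ h₂ h₃ (att l α) w) :
    ∃ n, D (gr S R₁ R₂ R₃ h₁ h₂ h₃) n (α.map (Sum.map id (enc _))) (l.map (enc _) ++ [none])
      (w.map Sum.inl) := by
  induction α generalizing w with
  | nil =>
    have : w = [] := h
    subst this
    exact ⟨0, D.nil _⟩
  | cons a α ih =>
    rcases a with t | A
    · obtain ⟨w', rfl, h'⟩ := h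
      obtain ⟨n, hn⟩ := ih w' h'
      exact ⟨n, D.term t hn⟩
    · obtain ⟨w₁, w₂, rfl, ⟨m, hm⟩, h'⟩ := h
      obtain ⟨n, hn⟩ := ih w₂ h'
      rw [List.map_append]
      exact D_app hm hn

theorem good_step {u v : List (T ⊕ (N × List Fl))} {w : List T} (h : Step R₁ R₂ R₃ u v)
    (hv : Good S h₁ h₂ h₃ v w) : Good S h₁ h₂ h₃ u w := by
  obtain ⟨p, q, A, l, h⟩ := h
  rcases h with ⟨α, h1, rfl, rfl⟩ | ⟨B, f, h1, rfl, rfl⟩ | ⟨f, α, h1, rfl, rfl⟩
  · rw [List.append_assoc, good_app] at hv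
    obtain ⟨wp, w', rfl, hp, hv⟩ := hv
    rw [good_app] at hv
    obtain ⟨wa, wq, rfl, ha, hq⟩ := hv
    rw [good_app]
    refine ⟨wp, wa ++ wq, rfl, hp, wa, wq, rfl, ?_, hq⟩
    obtain ⟨n, hn⟩ := good_att l α wa ha
    have hr : (enc (NS R₁ R₂ R₃) A, α.map (Sum.map id (enc (NS R₁ R₂ R₃)))) ∈
        (gr S R₁ R₂ R₃ h₁ h₂ h₃).R1 := ⟨_, h1, rfl⟩
    have := D.r1 (List.append_ne_nil_of_right_ne_nil _ (List.cons_ne_nil _ _)) hr hn
      (D.nil (Γ := gr S R₁ R₂ R₃ h₁ h₂ h₃) (l.map (enc _) ++ [none]))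
    rw [List.append_nil] at this
    exact ⟨_, this⟩
  · rw [good_app] at hv
    obtain ⟨wp, w', rfl, hp, wa, wq, rfl, ⟨n, hn⟩, hq⟩ := hv
    rw [good_app]
    refine ⟨wp, wa ++ wq, rfl, hp, wa, wq, rfl, ?_, hq⟩
    have hr : (enc (NS R₁ R₂ R₃) A, enc (NS R₁ R₂ R₃) B, enc (FS R₃) f) ∈
        (gr S R₁ R₂ R₃ h₁ h₂ h₃).R2 := ⟨_, h1, rfl⟩
    have := D.r2 (List.append_ne_nil_of_right_ne_nil _ (List.cons_ne_nil _ _)) hr hn
      (D.nil (Γ := gr S R₁ R₂ R₃ h₁ h₂ h₃) (l.map (enc _) ++ [none]))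
    rw [List.append_nil] at this
    exact ⟨_, this⟩
  · rw [List.append_assoc, good_app] at hv
    obtain ⟨wp, w', rfl, hp, hv⟩ := hv
    rw [good_app] at hv
    obtain ⟨wa, wq, rfl, ha, hq⟩ := hv
    rw [good_app]
    refine ⟨wp, wa ++ wq, rfl, hp, wa, wq, rfl, ?_, hq⟩
    obtain ⟨n, hn⟩ := good_att l α wa ha
    have hr : (enc (NS R₁ R₂ R₃) A, enc (FS R₃) f, α.map (Sum.map id (enc (NS R₁ R₂ R₃)))) ∈
        (gr S R₁ R₂ R₃ h₁ h₂ h₃).R3 := ⟨_, h1, rfl⟩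
    have := D.r3 hr hn
      (D.nil (Γ := gr S R₁ R₂ R₃ h₁ h₂ h₃) (enc (FS R₃) f :: (l.map (enc _) ++ [none])))
    rw [List.append_nil] at this
    exact ⟨_, this⟩

theorem good_rt {u v : List (T ⊕ (N × List Fl))} {w : List T}
    (h : Relation.ReflTransGen (Step R₁ R₂ R₃) u v)
    (hv : Good S h₁ h₂ h₃ v w) : Good S h₁ h₂ h₃ u w := by
  induction h using Relation.ReflTransGen.head_induction_on with
  | refl => exact hv
  | head h1 _ ih => exact good_step h1 ih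

end

theorem norm : NormStmt := by
  rintro T L ⟨N, Fl, S, R₁, R₂, R₃, h₁, h₂, h₃, hL⟩
  refine ⟨gr S R₁ R₂ R₃ h₁ h₂ h₃, ?_⟩
  ext w
  rw [hL w]
  constructor
  · intro h
    have := good_rt (S := S) (h₁ := h₁) (h₂ := h₂) (h₃ := h₃) h (good_word w)
    obtain ⟨w₁, w₂, rfl, hw, h2⟩ := this
    have h3 : w₂ = [] := h2
    subst h3
    rw [List.append_nil]
    exact hw
  · rintro ⟨n, hn⟩
    obtain ⟨w', hw', h'⟩ := D_to_step hn [Sum.inr S] [] rfl rfl
    have : w = w' := by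
      have hi : Function.Injective (Sum.inl : T → T ⊕ (gr S R₁ R₂ R₃ h₁ h₂ h₃).N) :=
        Sum.inl_injective
      exact List.map_injective_iff.2 hi hw'
    subst this
    exact h'

end Pool.Agent.Idx.H48
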