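import Pool.Agent.Helper85_Idx.Basic

/-!
# Squad IDX, module REP: replacing a context by a short one of the same class
-/

set_option autoImplicit false

namespace Pool.Agent.Idx.H48

variable {T : Type} {Γ : Gram T}

/-- forget the words of an annotated form -/
def fg : Item Γ → T ⊕ (Γ.N × Bool)
  | Sum.inl t => Sum.inl t
  | Sum.inr x => Sum.inr (x.1, x.2.2)

/-- the symbol of a marked symbol -/
def sf : T ⊕ (Γ.N × Bool) → T ⊕ Γ.N := Sum.map id Prod.fst

/-- nonterminals of the holes of a marked form -/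
def hn : List (T ⊕ (Γ.N × Bool)) → List Γ.N
  | [] => []
  | Sum.inl _ :: c => hn c
  | Sum.inr (A, true) :: c => A :: hn c
  | Sum.inr (_, false) :: c => hn c

/-- the nonterminals and words of the holes -/
def hp : List (Item Γ) → List (Γ.N × List T)
  | [] => []
  | Sum.inl _ :: c => hp c
  | Sum.inr (A, u, true) :: c => (A, u) :: hp c
  | Sum.inr (_, _, false) :: c => hp c

theorem hp_length (c : List (Item Γ)) (s : ℕ) : (hp c).length = (holes s c).length := by
  induction c generalizing s with
  | nil => rfl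
  | cons x c ih =>
    rcases x with t | ⟨A, u, b⟩
    · simp only [hp, holes]; exact ih _
    · cases b
      · simp only [hp, holes]; exact ih _
      · simp only [hp, holes, List.length_cons]; rw [ih _]

theorem hn_fg (c : List (Item Γ)) : hn (c.map fg) = (hp c).map Prod.fst := by
  induction c with
  | nil => rfl
  | cons x c ih =>
    rcases x with t | ⟨A, u, b⟩
    · exact ih
    · cases b
      · exact ih
      · change A :: hn (c.map fg) = A :: (hp c).map Prod.fst
        rw [ih]

theorem sf_fg (c : List (Item Γ)) : (c.map fg).map sf = form c := by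
  rw [List.map_map]
  unfold form
  refine List.map_congr_left fun x _ => ?_
  rcases x with t | ⟨A, u, b⟩ <;> rfl

theorem vs_flat (v : T → ℤ) (c : List (Item Γ)) :
    vs v (flat c) = kv v c + ((hp c).map (fun x => vs v x.2)).sum := by
  induction c with
  | nil => simp [kv, hp, vs]
  | cons x c ih =>
    rw [flat_cons, vs_append, ih]
    rcases x with t | ⟨A, u, b⟩
    · simp only [kv, hp, iword]
      have : vs v [t] = v t := by simp [vs]
      rw [this]; ring
    · cases b
      · simp only [kv, hp, iword]; ring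
      · simp only [kv, hp, iword, List.map_cons, List.sum_cons]; ring

theorem hp_fill {σ : List Γ.F} {c : List (Item Γ)} (h : Fill σ c) :
    ∀ x ∈ hp c, x.2 ∈ Lang Γ x.1 σ := by
  induction c with
  | nil => intro x hx; simp [hp] at hx
  | cons y c ih =>
    rcases y with t | ⟨A, u, b⟩
    · exact ih (Fill_tail h)
    · cases b
      · exact ih (Fill_tail h)
      · intro x hx
        rcases List.mem_cons.1 hx with rfl | hx
        · exact h A u true List.mem_cons_self
        · exact ih (Fill_tail h) x hx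

theorem fill_exists (σ : List Γ.F) (v : T → ℤ) (B : ℕ) (hv : ∀ t, |v t| ≤ 1) (hB : 1 ≤ B)
    (ψ : List (T ⊕ (Γ.N × Bool))) :
    ∀ H : List (Γ.N × List T), hn ψ = H.map Prod.fst → (∀ x ∈ H, x.2 ∈ Lang Γ x.1 σ) →
      (∀ E, Sum.inr (E, false) ∈ ψ → ∃ w ∈ Lang Γ E σ, |vs v w| ≤ B) →
      ∃ d : List (Item Γ), form d = ψ.map sf ∧ Fill σ d ∧
        |vs v (flat d) - (H.map (fun x => vs v x.2)).sum| ≤ ψ.length * B := by
  induction ψ with
  | nil =>
    intro H h1 _ _
    have : H = [] := by
      cases H with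
      | nil => rfl
      | cons _ _ => simp [hn] at h1
    subst this
    refine ⟨[], rfl, ?_, by simp [vs]⟩
    intro A u b hm
    simp at hm
  | cons x ψ ih =>
    intro H h1 h2 h3
    have hB' : (1 : ℤ) ≤ B := by exact_mod_cast hB
    rcases x with t | ⟨A, b⟩
    · obtain ⟨d, e1, e2, e3⟩ := ih H h1 h2 (fun E hE => h3 E (List.mem_cons_of_mem _ hE))
      refine ⟨Sum.inl t :: d, ?_, ?_, ?_⟩
      · rw [form_cons, e1]; rfl
      · intro E u b hm
        rcases List.mem_cons.1 hm with hm | hm
        · exact absurd hm (by simp)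
        · exact e2 E u b hm
      · rw [flat_cons, vs_append, List.length_cons]
        have h4 : vs v (iword (Sum.inl t : Item Γ)) = v t := by simp [vs, iword]
        rw [h4]
        have := hv t
        push_cast
        rw [abs_le] at this e3 ⊢
        constructor <;> nlinarith [this.1, this.2, e3.1, e3.2]
    · cases b
      · obtain ⟨w, hw, hw2⟩ := h3 A List.mem_cons_self
        obtain ⟨d, e1, e2, e3⟩ := ih H h1 h2 (fun E hE => h3 E (List.mem_cons_of_mem _ hE))
        refine ⟨Sum.inr (A, w, false) :: d, ?_, ?_, ?_⟩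
        · rw [form_cons, e1]; rfl
        · intro E u b hm
          rcases List.mem_cons.1 hm with hm | hm
          · simp only [Sum.inr.injEq, Prod.mk.injEq] at hm
            obtain ⟨rfl, rfl, rfl⟩ := hm
            exact hw
          · exact e2 E u b hm
        · rw [flat_cons, vs_append, List.length_cons]
          have h4 : vs v (iword (Sum.inr (A, w, false) : Item Γ)) = vs v w := rfl
          rw [h4]
          push_cast
          rw [abs_le] at hw2 e3 ⊢
          constructor <;> nlinarith [hw2.1, hw2.2, e3.1, e3.2]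
      · cases H with
        | nil => simp [hn] at h1
        | cons y H =>
          have h1' : A :: hn ψ = y.1 :: H.map Prod.fst := h1
          obtain ⟨h5, h6⟩ := List.cons.inj h1'
          obtain ⟨d, e1, e2, e3⟩ := ih H h6 (fun x hx => h2 x (List.mem_cons_of_mem _ hx))
            (fun E hE => h3 E (List.mem_cons_of_mem _ hE))
          refine ⟨Sum.inr (A, y.2, true) :: d, ?_, ?_, ?_⟩
          · rw [form_cons, e1]; rfl
          · intro E u b hm
            rcases List.mem_cons.1 hm with hm | hm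
            · simp only [Sum.inr.injEq, Prod.mk.injEq] at hm
              obtain ⟨rfl, rfl, rfl⟩ := hm
              rw [h5]
              exact h2 y List.mem_cons_self
            · exact e2 E u b hm
          · rw [flat_cons, vs_append, List.length_cons, List.map_cons, List.sum_cons]
            have h4 : vs v (iword (Sum.inr (A, y.2, true) : Item Γ)) = vs v y.2 := rfl
            rw [h4]
            push_cast
            rw [abs_le] at e3 ⊢
            constructor <;> nlinarith [e3.1, e3.2]

/-- a marked form of a class -/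
def Cls (Γ : Gram T) (A : Γ.N) (f : Γ.F) (L : List Γ.N) (Ns : Set Γ.N)
    (ψ : List (T ⊕ (Γ.N × Bool))) : Prop :=
  (∃ n, D Γ n [Sum.inr A] [f] (ψ.map sf)) ∧ hn ψ = L ∧ ∀ E, Sum.inr (E, false) ∈ ψ → E ∈ Ns

theorem cls_bound (Γ : Gram T) (q : ℕ) : ∃ C : ℕ, ∀ (A : Γ.N) (f : Γ.F) (L : List Γ.N)
    (Ns : Set Γ.N), L.length ≤ q → (∃ ψ, Cls Γ A f L Ns ψ) →
    ∃ ψ, Cls Γ A f L Ns ψ ∧ ψ.length ≤ C := by
  classical
  have := Γ.finN
  have := Γ.finF
  have hL : {L : List Γ.N | L.length ≤ q}.Finite := List.finite_length_le Γ.N q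
  have := hL.to_subtype
  let I := Γ.N × Γ.F × {L : List Γ.N | L.length ≤ q} × Set Γ.N
  let g : I → ℕ := fun x => if h : ∃ ψ, Cls Γ x.1 x.2.1 x.2.2.1.1 x.2.2.2 ψ then
    h.choose.length else 0
  obtain ⟨C, hC⟩ := (Set.finite_range g).bddAbove
  refine ⟨C, fun A f L Ns hq hex => ⟨hex.choose, hex.choose_spec, ?_⟩⟩
  have h1 : g (A, f, ⟨L, hq⟩, Ns) ≤ C := hC ⟨_, rfl⟩
  have h2 : g (A, f, ⟨L, hq⟩, Ns) = hex.choose.length := dif_pos hex
  rw [← h2]
  exact h1

theorem rep : RepStmt := by
  intro T Γ q
  obtain ⟨C, hC⟩ := cls_bound Γ q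
  refine ⟨C, ?_⟩
  intro G _ ev v B A f σ c s hv hB hval hD hF hone hq hsmall
  let Ns : Set Γ.N := {E | ∃ w ∈ Lang Γ E σ, |vs v w| ≤ B}
  have hcls : Cls Γ A f ((hp c).map Prod.fst) Ns (c.map fg) := by
    refine ⟨?_, hn_fg c, ?_⟩
    · rw [sf_fg]; exact hD
    · intro E hE
      obtain ⟨x, hx, hxe⟩ := List.mem_map.1 hE
      rcases x with t | ⟨E', u, b⟩
      · exact absurd hxe (by simp [fg])
      · simp only [fg, Sum.inr.injEq, Prod.mk.injEq] at hxe
        obtain ⟨rfl, rfl⟩ := hxe
        exact ⟨u, hF E' u false hx, hsmall E' u hx⟩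
  obtain ⟨ψ, ⟨⟨n, hn'⟩, h2, h3⟩, h4⟩ := hC A f _ Ns
    (by rw [List.length_map, hp_length c s]; exact hq) ⟨_, hcls⟩
  obtain ⟨d, e1, e2, e3⟩ := fill_exists σ v B hv hB ψ (hp c) h2 (hp_fill hF)
    (fun E hE => h3 E hE)
  rw [← e1] at hn'
  have h5 : flat d ∈ Lang Γ A ([f] ++ σ) := Lang_of_Fill hn' e2
  have h6 := hval _ _ (hone _ h5)
  rw [h6, vs_flat] at e3
  have h7 : kv v c + ((hp c).map (fun x => vs v x.2)).sum -
      ((hp c).map (fun x => vs v x.2)).sum = kv v c := by ring
  rw [h7] at e3
  have h8 : ((ψ.length : ℕ) : ℤ) ≤ C := by exact_mod_cast h4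
  have h9 : (0 : ℤ) ≤ B := by positivity
  exact e3.trans (mul_le_mul_of_nonneg_right h8 h9)

end Pool.Agent.Idx.H48
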